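import Pool.Agent.W676.Ghost.Main

/-!
The uniform Roe algebra as a closed star subalgebra, and projections near almost projections.
-/

namespace Pool.Agent.Y186.RG

open Pool.Agent.W676.Ghost Filter
open scoped Classical NNReal ENNReal

variable {Z : Type}

lemma entry_star (T : L2 Z →L[ℂ] L2 Z) (x y : Z) :
    entry (star T) x y = (starRingEnd ℂ) (entry T y x) := by
  rw [entry, entry, ContinuousLinearMap.star_eq_adjoint, ContinuousLinearMap.adjoint_inner_right,
    inner_conj_symm]

lemma finProp_star [MetricSpace Z] {T : L2 Z →L[ℂ] L2 Z} (hT : FinProp T) : FinProp (star T) := by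
  obtain ⟨r, hr⟩ := hT
  refine ⟨r, fun x y h => ?_⟩
  rw [entry_star] at h
  rw [dist_comm]
  exact hr y x (fun h0 => h (by rw [h0, map_zero]))

lemma uRoe_star [MetricSpace Z] {T : L2 Z →L[ℂ] L2 Z} (hT : T ∈ uRoe Z) : star T ∈ uRoe Z :=
  map_mem_closure continuous_star hT (fun _ ha => finProp_star ha)

/-- The uniform Roe algebra as a star subalgebra. -/
noncomputable def roeAlg (Z : Type) [MetricSpace Z] : StarSubalgebra ℂ (L2 Z →L[ℂ] L2 Z) where
  carrier := uRoe Z
  mul_mem' := uRoe_mul
  add_mem' := uRoe_add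
  algebraMap_mem' r := by
    rw [Algebra.algebraMap_eq_smul_one]
    exact uRoe_smul r uRoe_one
  star_mem' := uRoe_star

/-- the cut-off function -/
noncomputable def cf (t : ℝ) : ℝ := max 0 (min 1 (2 * t - 1 / 2))

lemma continuous_cf : Continuous cf := by unfold cf; fun_prop

lemma cf_low {t : ℝ} (h : t ≤ 1 / 4) : cf t = 0 := by
  unfold cf
  rw [min_eq_right (by linarith), max_eq_left (by linarith)]

lemma cf_high {t : ℝ} (h : 3 / 4 ≤ t) : cf t = 1 := by
  unfold cf
  rw [min_eq_left (by linarith), max_eq_right (by norm_num)]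

/-- the quotient of the cut-off function -/
noncomputable def hf (t : ℝ) : ℝ := cf t / max t (1 / 4)

lemma continuous_hf : Continuous hf := by
  unfold hf
  apply continuous_cf.div (by fun_prop)
  intro t
  have : (1 / 4 : ℝ) ≤ max t (1 / 4) := le_max_right _ _
  linarith

lemma hf_mul (t : ℝ) : hf t * t = cf t := by
  unfold hf
  by_cases h : t ≤ 1 / 4
  · rw [cf_low h]; ring
  · push Not at h
    rw [max_eq_left h.le]
    field_simp

/-- **Projections near almost projections**, abstract form. -/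
lemma spectralA {A : Type*} [CStarAlgebra A] (S : StarSubalgebra ℂ A) (hS : IsClosed (S : Set A))
    {b : A} (hb : b ∈ S) (hs : IsSelfAdjoint b)
    {η : ℝ} (hη : ‖b * b - b‖ ≤ η) (hη' : η ≤ 1 / 8) :
    ∃ e h : A, e ∈ S ∧ IsStarProjection e ∧ e = h * b ∧ e = b * h ∧
      ‖b - b * e‖ ≤ 2 * η := by
  have hη0 : 0 ≤ η := (norm_nonneg _).trans hη
  have hmem : ∀ f : ℝ → ℝ, cfc f b ∈ S := fun f => cfc_mem (𝕜' := ℂ) (s := S) (hs := hS) f hb
  have hc1 : Continuous (fun t : ℝ => t * t - t) := by fun_prop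
  have hsq : cfc (fun t : ℝ => t * t - t) b = b * b - b := by
    rw [cfc_sub (fun t : ℝ => t * t) (fun t => t) b, cfc_mul (fun t : ℝ => t) (fun t => t) b,
      cfc_id' ℝ b]
  have hspec : ∀ t ∈ spectrum ℝ b, |t * t - t| ≤ η := by
    intro t ht
    have h1 := norm_apply_le_norm_cfc (fun t : ℝ => t * t - t) b ht hc1.continuousOn hs
    rw [hsq] at h1
    exact h1.trans hη
  have hdich : ∀ t ∈ spectrum ℝ b, t ≤ 1 / 4 ∨ 3 / 4 ≤ t := by
    intro t ht
    by_contra hcon
    push Not at hcon
    have h1 := (abs_le.1 (hspec t ht)).1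
    nlinarith [hcon.1, hcon.2]
  have hm1 : cfc cf b = cfc hf b * b := by
    have h1 : cfc (fun t => hf t * t) b = cfc hf b * cfc (fun t : ℝ => t) b :=
      cfc_mul hf (fun t => t) b continuous_hf.continuousOn continuous_id.continuousOn
    rw [cfc_id' ℝ b] at h1
    rw [← h1]
    congr 1
    funext t
    exact (hf_mul t).symm
  have hm2 : cfc cf b = b * cfc hf b := by
    have h1 : cfc (fun t => t * hf t) b = cfc (fun t : ℝ => t) b * cfc hf b :=
      cfc_mul (fun t => t) hf b continuous_id.continuousOn continuous_hf.continuousOn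
    rw [cfc_id' ℝ b] at h1
    rw [← h1]
    congr 1
    funext t
    rw [mul_comm]
    exact (hf_mul t).symm
  refine ⟨cfc cf b, cfc hf b, hmem _, ⟨?_, cfc_predicate cf b⟩, hm1, hm2, ?_⟩
  · show cfc cf b * cfc cf b = cfc cf b
    rw [← cfc_mul cf cf b continuous_cf.continuousOn continuous_cf.continuousOn]
    apply cfc_congr
    intro t ht
    rcases hdich t ht with h | h
    · show cf t * cf t = cf t
      rw [cf_low h, mul_zero]
    · show cf t * cf t = cf t
      rw [cf_high h, mul_one]
  · have h1 : b - b * cfc cf b = cfc (fun t : ℝ => t - t * cf t) b := by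
      have hct : Continuous (fun t : ℝ => t * cf t) := continuous_id.mul continuous_cf
      rw [cfc_sub (fun t : ℝ => t) (fun t => t * cf t) b continuous_id.continuousOn
        hct.continuousOn,
        cfc_mul (fun t : ℝ => t) cf b continuous_id.continuousOn continuous_cf.continuousOn,
        cfc_id' ℝ b]
    rw [h1]
    apply norm_cfc_le (by linarith)
    intro t ht
    rcases hdich t ht with h | h
    · rw [cf_low h, mul_zero, sub_zero, Real.norm_eq_abs]
      have h2 := hspec t ht
      have h3 : |t * t - t| = |t| * |1 - t| := by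
        rw [← abs_mul, ← abs_neg]; congr 1; ring
      have h4 : 3 / 4 ≤ |1 - t| := by
        rw [abs_of_nonneg (by linarith)]; linarith
      rw [h3] at h2
      nlinarith [abs_nonneg t]
    · rw [cf_high h, mul_one, sub_self, norm_zero]; linarith

/-- **Projections near almost projections.** -/
lemma spectral [MetricSpace Z] {b : L2 Z →L[ℂ] L2 Z} (hb : b ∈ uRoe Z) (hs : IsSelfAdjoint b)
    {η : ℝ} (hη : ‖b * b - b‖ ≤ η) (hη' : η ≤ 1 / 8) :
    ∃ e h : L2 Z →L[ℂ] L2 Z, e ∈ uRoe Z ∧ IsStarProjection e ∧ e = h * b ∧ e = b * h ∧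
      ‖b - b * e‖ ≤ 2 * η :=
  spectralA (roeAlg Z) isClosed_uRoe hb hs hη hη'

end Pool.Agent.Y186.RG
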