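import Pool.Agent.Y186.RG.Alg

/-!
Operators of the uniform Roe algebra and decompositions of the space into blocks which are far
from each other. The decomposition is given by the map which sends a point to the index of its
block.
-/

namespace Pool.Agent.Y186.RG

open Pool.Agent.W676.Ghost Filter
open scoped Classical NNReal ENNReal

variable {Z : Type}

lemma ind_del_mem {S : Set Z} {z : Z} (hz : z ∈ S) : ind S (del z) = (del z : L2 Z) := by
  ext y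
  rw [ind_apply, del_apply]
  by_cases h : y = z
  · subst h; simp [hz]
  · simp [h]

lemma ind_del_not {S : Set Z} {z : Z} (hz : z ∉ S) : ind S (del z) = (0 : L2 Z) := by
  ext y
  rw [ind_apply, del_apply]
  by_cases h : y = z
  · subst h; simp [hz]
  · simp [h]

lemma ind_op_ind {S T : Set Z} {a : L2 Z →L[ℂ] L2 Z} (h : ∀ x ∈ S, ∀ y ∈ T, entry a x y = 0) :
    ind S * a * ind T = 0 := by
  apply ContinuousLinearMap.ext
  intro ξ
  ext x
  show (ind S (a (ind T ξ))) x = (0 : ℂ)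
  rw [ind_apply]
  by_cases hx : x ∈ S
  · rw [if_pos hx]
    have h1 := hasSum_apply a (ind T ξ) x
    have h2 : (fun z => (ind T ξ) z * entry a x z) = fun _ => 0 := by
      funext z
      rw [ind_apply]
      by_cases hz : z ∈ T
      · rw [h x hx z hz, mul_zero]
      · rw [if_neg hz, zero_mul]
    rw [h2] at h1
    exact h1.unique hasSum_zero
  · rw [if_neg hx]

lemma norm_ind3 (S T : Set Z) (a : L2 Z →L[ℂ] L2 Z) : ‖ind S * a * ind T‖ ≤ ‖a‖ := by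
  calc ‖ind S * a * ind T‖ ≤ ‖ind S * a‖ * ‖ind T‖ := norm_mul_le _ _
    _ ≤ (‖ind S‖ * ‖a‖) * ‖ind T‖ := mul_le_mul_of_nonneg_right (norm_mul_le _ _) (norm_nonneg _)
    _ ≤ (1 * ‖a‖) * 1 := by
        apply mul_le_mul _ (norm_ind_op_le T) (norm_nonneg _) (by positivity)
        exact mul_le_mul_of_nonneg_right (norm_ind_op_le S) (norm_nonneg _)
    _ = ‖a‖ := by ring

lemma norm_mul_ind (T : Set Z) (a : L2 Z →L[ℂ] L2 Z) : ‖a * ind T‖ ≤ ‖a‖ := by
  have := norm_ind3 Set.univ T a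
  rwa [ind_univ, one_mul] at this

lemma norm_ind_mul (T : Set Z) (a : L2 Z →L[ℂ] L2 Z) : ‖ind T * a‖ ≤ ‖a‖ := by
  have := norm_ind3 T Set.univ a
  rwa [ind_univ, mul_one] at this

lemma bound_of_finset {T : L2 Z →L[ℂ] L2 Z} {C : ℝ}
    (h : ∀ F : Finset Z, ∀ ξ : L2 Z, ‖T (ind (F : Set Z) ξ)‖ ≤ C * ‖ξ‖) (ξ : L2 Z) :
    ‖T ξ‖ ≤ C * ‖ξ‖ := by
  have h1 : Tendsto (fun s : Finset Z => ‖T (ind (s : Set Z) ξ)‖) atTop (nhds ‖T ξ‖) :=
    ((T.continuous.tendsto ξ).comp (tendsto_ind ξ)).norm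
  exact le_of_tendsto h1 (Eventually.of_forall (fun s => h s ξ))

/-- The block of index `n`. -/
noncomputable def bl (β : Z → ℕ) (n : ℕ) : L2 Z →L[ℂ] L2 Z := ind (β ⁻¹' {n})

variable {β : Z → ℕ}

lemma ind_insert {s : Finset ℕ} {n : ℕ} (hn : n ∉ s) :
    ind (β ⁻¹' (insert n s : Finset ℕ)) = bl β n + ind (β ⁻¹' (s : Set ℕ)) := by
  ext ξ z
  show (ind (β ⁻¹' (insert n s : Finset ℕ)) ξ) z = (ind (β ⁻¹' {n}) ξ) z + (ind (β ⁻¹' (s : Set ℕ)) ξ) z
  rw [ind_apply, ind_apply, ind_apply]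
  by_cases h1 : β z = n
  · have h2 : β z ∉ s := by rw [h1]; exact hn
    simp [h1, hn]
  · by_cases h2 : β z ∈ s
    · simp [h1, h2]
    · simp [h1, h2]

/-- splitting over blocks -/
lemma ind_split (G : Set ℕ) (F : Finset Z) (ξ : L2 Z) :
    ∃ s : Finset ℕ, (∀ n ∈ s, n ∈ G) ∧
      ind (β ⁻¹' G) (ind (F : Set Z) ξ) = ind (β ⁻¹' (s : Set ℕ)) (ind (F : Set Z) ξ) := by
  refine ⟨(F.image β).filter (· ∈ G), fun n hn => (Finset.mem_filter.1 hn).2, ?_⟩
  ext z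
  simp only [ind_apply]
  by_cases hz : z ∈ F
  · by_cases h2 : β z ∈ G
    · have h3 : z ∈ β ⁻¹' (((F.image β).filter (· ∈ G) : Finset ℕ) : Set ℕ) := by
        rw [Set.mem_preimage, Finset.mem_coe, Finset.mem_filter]
        exact ⟨Finset.mem_image_of_mem _ hz, h2⟩
      rw [if_pos h3, if_pos (show z ∈ β ⁻¹' G from h2)]
    · have h3 : z ∉ β ⁻¹' (((F.image β).filter (· ∈ G) : Finset ℕ) : Set ℕ) := by
        rw [Set.mem_preimage, Finset.mem_coe, Finset.mem_filter]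
        exact fun h => h2 h.2
      rw [if_neg h3, if_neg (show z ∉ β ⁻¹' G from h2)]
  · have h3 : z ∉ (F : Set Z) := fun h => hz (Finset.mem_coe.1 h)
    rw [if_neg h3, ite_self, ite_self]

lemma ind_sum (s : Finset ℕ) : ind (β ⁻¹' (s : Set ℕ)) = ∑ n ∈ s, bl β n := by
  induction s using Finset.induction_on with
  | empty =>
    ext ξ z
    show (ind (β ⁻¹' ((∅ : Finset ℕ) : Set ℕ)) ξ) z = (0 : ℂ)
    rw [ind_apply]; simp
  | insert n s hn ih =>
    rw [Finset.sum_insert hn, ind_insert hn, ih]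

/-- sums of leaks -/
lemma leak_sum {T : L2 Z →L[ℂ] L2 Z} {G : Set ℕ} {c : ℕ → ℝ} {C : ℝ}
    (h : ∀ n ∈ G, ‖T * bl β n‖ ≤ c n) (hc : ∀ s : Finset ℕ, (∀ n ∈ s, n ∈ G) → ∑ n ∈ s, c n ≤ C) :
    ‖T * ind (β ⁻¹' G)‖ ≤ C := by
  have hC : 0 ≤ C := by simpa using hc ∅ (by simp)
  apply ContinuousLinearMap.opNorm_le_bound _ hC
  apply bound_of_finset
  intro F ξ
  obtain ⟨s, hs, he⟩ := ind_split (β := β) G F ξ
  show ‖T (ind (β ⁻¹' G) (ind (F : Set Z) ξ))‖ ≤ _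
  rw [he, ind_sum, _root_.sum_apply, map_sum]
  calc ‖∑ n ∈ s, T (bl β n (ind (F : Set Z) ξ))‖
      ≤ ∑ n ∈ s, ‖T (bl β n (ind (F : Set Z) ξ))‖ := norm_sum_le _ _
    _ ≤ ∑ n ∈ s, c n * ‖ξ‖ := by
        apply Finset.sum_le_sum
        intro n hn
        calc ‖(T * bl β n) (ind (F : Set Z) ξ)‖ ≤ ‖T * bl β n‖ * ‖ind (F : Set Z) ξ‖ :=
              (T * bl β n).le_opNorm _
          _ ≤ c n * ‖ξ‖ := mul_le_mul (h n (hs n hn)) (norm_ind_le _ _) (norm_nonneg _)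
              ((norm_nonneg _).trans (h n (hs n hn)))
    _ = (∑ n ∈ s, c n) * ‖ξ‖ := by rw [Finset.sum_mul]
    _ ≤ C * ‖ξ‖ := mul_le_mul_of_nonneg_right (hc s hs) (norm_nonneg _)

/-- operators preserving the blocks -/
lemma block_bound {a : L2 Z →L[ℂ] L2 Z} {G : Set ℕ} {C : ℝ} (hC : 0 ≤ C)
    (h1 : ∀ n ∈ G, ind (β ⁻¹' {n})ᶜ * a * bl β n = 0) (h2 : ∀ n ∈ G, ‖a * bl β n‖ ≤ C) :
    ‖a * ind (β ⁻¹' G)‖ ≤ C := by
  have key : ∀ s : Finset ℕ, (∀ n ∈ s, n ∈ G) → ∀ ξ : L2 Z,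
      ‖a (ind (β ⁻¹' (s : Set ℕ)) ξ)‖ ^ 2 ≤ C ^ 2 * ‖ind (β ⁻¹' (s : Set ℕ)) ξ‖ ^ 2 ∧
      ind (β ⁻¹' (s : Set ℕ)) (a (ind (β ⁻¹' (s : Set ℕ)) ξ)) = a (ind (β ⁻¹' (s : Set ℕ)) ξ) := by
    intro s
    induction s using Finset.induction_on with
    | empty =>
      intro _ ξ
      have h0 : ind (β ⁻¹' ((∅ : Finset ℕ) : Set ℕ)) ξ = 0 := by
        ext z
        rw [ind_apply]; simp
      rw [h0, map_zero, norm_zero]
      constructor
      · simp
      · rw [map_zero]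
    | insert n s hn ih =>
      intro hs ξ
      obtain ⟨ih1, ih2⟩ := ih (fun m hm => hs m (Finset.mem_insert_of_mem hm)) ξ
      have hnG : n ∈ G := hs n (Finset.mem_insert_self _ _)
      set u := a (ind (β ⁻¹' (s : Set ℕ)) ξ) with hu
      set v := a (bl β n ξ) with hv
      have hsplit : ind (β ⁻¹' ((insert n s : Finset ℕ) : Set ℕ)) ξ =
          bl β n ξ + ind (β ⁻¹' (s : Set ℕ)) ξ := by
        rw [ind_insert hn]; rfl
      have hvn : bl β n v = v := by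
        have h3 : ind (β ⁻¹' {n})ᶜ v = 0 :=
          congrArg (fun T : L2 Z →L[ℂ] L2 Z => T ξ) (h1 n hnG)
        rw [ind_compl_apply] at h3
        exact (sub_eq_zero.1 h3).symm
      have hdis : ∀ η : L2 Z, bl β n (ind (β ⁻¹' (s : Set ℕ)) η) = 0 := by
        intro η
        show (ind (β ⁻¹' {n}) * ind (β ⁻¹' (s : Set ℕ))) η = 0
        rw [ind_mul]
        have h4 : (β ⁻¹' {n} ∩ β ⁻¹' (s : Set ℕ)) = ∅ := by
          ext z
          simp only [Set.mem_inter_iff, Set.mem_preimage, Set.mem_singleton_iff,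
            Finset.mem_coe, Set.mem_empty_iff_false, iff_false, not_and]
          intro h5; rw [h5]; exact hn
        rw [h4]
        ext z
        rw [ind_apply]; simp
      have hdis2 : ∀ η : L2 Z, ind (β ⁻¹' (s : Set ℕ)) (bl β n η) = 0 := by
        intro η
        show (ind (β ⁻¹' (s : Set ℕ)) * ind (β ⁻¹' {n})) η = 0
        rw [ind_mul, Set.inter_comm, ← ind_mul]
        exact hdis η
      have hbu : bl β n u = 0 := by rw [← ih2]; exact hdis _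
      have hsv : ind (β ⁻¹' (s : Set ℕ)) v = 0 := by rw [← hvn]; exact hdis2 _
      have hpyth : ∀ u' v' : L2 Z, bl β n v' = v' → bl β n u' = 0 →
          ‖v' + u'‖ ^ 2 = ‖v'‖ ^ 2 + ‖u'‖ ^ 2 := by
        intro u' v' h5 h6
        have h7 := norm_ind_split (β ⁻¹' {n}) (v' + u')
        have h5' : ind (β ⁻¹' {n}) v' = v' := h5
        have h6' : ind (β ⁻¹' {n}) u' = 0 := h6
        rw [ind_compl_apply, map_add, h5', h6', add_zero, add_sub_cancel_left] at h7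
        exact h7
      constructor
      · rw [hsplit, map_add, ← hu, ← hv, hpyth u v hvn hbu,
          hpyth (ind (β ⁻¹' (s : Set ℕ)) ξ) (bl β n ξ) (by
            show (ind (β ⁻¹' {n}) * ind (β ⁻¹' {n})) ξ = _
            rw [ind_sq]; rfl) (hdis ξ)]
        have h8 : ‖v‖ ≤ C * ‖bl β n ξ‖ := by
          have h9 : v = (a * bl β n) (bl β n ξ) := by
            show a (bl β n ξ) = a (bl β n (bl β n ξ))
            congr 1
            show (ind (β ⁻¹' {n})) ξ = (ind (β ⁻¹' {n}) * ind (β ⁻¹' {n})) ξ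
            rw [ind_sq]
          rw [h9]
          exact ((a * bl β n).le_opNorm _).trans
            (mul_le_mul_of_nonneg_right (h2 n hnG) (norm_nonneg _))
        have h10 : ‖v‖ ^ 2 ≤ C ^ 2 * ‖bl β n ξ‖ ^ 2 := by
          calc ‖v‖ ^ 2 ≤ (C * ‖bl β n ξ‖) ^ 2 := pow_le_pow_left₀ (norm_nonneg _) h8 2
            _ = _ := by ring
        linarith
      · rw [hsplit, map_add, ← hu, ← hv]
        rw [ind_insert hn]
        show bl β n (v + u) + ind (β ⁻¹' (s : Set ℕ)) (v + u) = v + u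
        rw [map_add, map_add, hvn, hbu, hsv, ih2, add_zero, zero_add]
  apply ContinuousLinearMap.opNorm_le_bound _ hC
  apply bound_of_finset
  intro F ξ
  obtain ⟨s, hs, he⟩ := ind_split (β := β) G F ξ
  show ‖a (ind (β ⁻¹' G) (ind (F : Set Z) ξ))‖ ≤ _
  rw [he]
  have h3 := (key s hs (ind (F : Set Z) ξ)).1
  have h4 : ‖ind (β ⁻¹' (s : Set ℕ)) (ind (F : Set Z) ξ)‖ ≤ ‖ξ‖ :=
    (norm_ind_le _ _).trans (norm_ind_le _ _)
  apply le_of_sq_le_sq _ (by positivity)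
  calc _ ≤ _ := h3
    _ ≤ C ^ 2 * ‖ξ‖ ^ 2 :=
        mul_le_mul_of_nonneg_left (pow_le_pow_left₀ (norm_nonneg _) h4 2) (sq_nonneg _)
    _ = (C * ‖ξ‖) ^ 2 := by ring

section metric
variable [MetricSpace Z]

/-- leaks tend to zero -/
lemma leak_zero (hf : ∀ R : ℝ, ∃ K : ℕ, ∀ x y : Z, β x ≠ β y → K ≤ β x + β y → R ≤ dist x y)
    {a : L2 Z →L[ℂ] L2 Z} (ha : FinProp a) :
    ∃ K : ℕ, ∀ n, K ≤ n → ind (β ⁻¹' {n})ᶜ * a * bl β n = 0 := by
  obtain ⟨r, hr⟩ := ha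
  obtain ⟨K, hK⟩ := hf (r + 1)
  refine ⟨K, fun n hn => ind_op_ind (fun x hx y hy => ?_)⟩
  by_contra h0
  have h1 := hr x y h0
  have hx' : β x ≠ n := hx
  have hy' : β y = n := hy
  have h2 := hK x y (by rw [hy']; exact hx') (by rw [hy']; omega)
  linarith

lemma exists_finProp {q : L2 Z →L[ℂ] L2 Z} (hq : q ∈ uRoe Z) {ε : ℝ} (hε : 0 < ε) :
    ∃ a : L2 Z →L[ℂ] L2 Z, FinProp a ∧ ‖q - a‖ < ε := by
  obtain ⟨a, ha, h⟩ := Metric.mem_closure_iff.1 hq ε hε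
  exact ⟨a, ha, by rwa [dist_eq_norm] at h⟩

lemma leak_small (hf : ∀ R : ℝ, ∃ K : ℕ, ∀ x y : Z, β x ≠ β y → K ≤ β x + β y → R ≤ dist x y)
    {q : L2 Z →L[ℂ] L2 Z} (hq : q ∈ uRoe Z) {ε : ℝ} (hε : 0 < ε) :
    ∃ K : ℕ, ∀ n, K ≤ n → ‖ind (β ⁻¹' {n})ᶜ * q * bl β n‖ ≤ ε := by
  obtain ⟨a, ha, hqa⟩ := exists_finProp hq hε
  obtain ⟨K, hK⟩ := leak_zero hf ha
  refine ⟨K, fun n hn => ?_⟩
  have h1 : ind (β ⁻¹' {n})ᶜ * q * bl β n = ind (β ⁻¹' {n})ᶜ * (q - a) * bl β n := by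
    rw [mul_sub, sub_mul, hK n hn, sub_zero]
  rw [h1]
  exact (norm_ind3 _ _ _).trans hqa.le

/-- A non compact operator is not small on infinitely many blocks. -/
lemma infinite_good (hβ : ∀ n, (β ⁻¹' {n}).Finite)
    (hf : ∀ R : ℝ, ∃ K : ℕ, ∀ x y : Z, β x ≠ β y → K ≤ β x + β y → R ≤ dist x y)
    {q : L2 Z →L[ℂ] L2 Z} (hq : q ∈ uRoe Z) (hnc : ¬ IsCompactOperator q) :
    ∃ δ : ℝ, 0 < δ ∧ ∀ N : ℕ, ∃ n, N ≤ n ∧ δ ≤ ‖q * bl β n‖ := by
  by_contra hcon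
  push Not at hcon
  apply hnc
  have hcl : q ∈ closure {T : L2 Z →L[ℂ] L2 Z | IsCompactOperator T} := by
    rw [Metric.mem_closure_iff]
    intro ε hε
    obtain ⟨a, ha, hqa⟩ := exists_finProp hq (show 0 < ε / 4 by linarith)
    obtain ⟨K, hK⟩ := leak_zero hf ha
    obtain ⟨N, hN⟩ := hcon (ε / 4) (by linarith)
    set G : Set ℕ := {n | max K N ≤ n} with hG
    have hC : ‖a * ind (β ⁻¹' G)‖ ≤ ε / 2 := by
      apply block_bound (by linarith)
      · intro n hn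
        exact hK n ((le_max_left _ _).trans hn)
      · intro n hn
        have h1 := hN n ((le_max_right _ _).trans hn)
        have h2 : a * bl β n = q * bl β n - (q - a) * bl β n := by rw [sub_mul]; abel
        rw [h2]
        have h3 : ‖(q - a) * bl β n‖ ≤ ‖q - a‖ := norm_mul_ind _ _
        calc _ ≤ ‖q * bl β n‖ + ‖(q - a) * bl β n‖ := norm_sub_le _ _
          _ ≤ ε / 4 + ε / 4 := add_le_add h1.le (h3.trans hqa.le)
          _ = ε / 2 := by ring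
    have hfin : ((β ⁻¹' G)ᶜ).Finite := by
      have h1 : (β ⁻¹' G)ᶜ ⊆ ⋃ n ∈ Set.Iio (max K N), β ⁻¹' {n} := by
        intro z hz
        have h2 : ¬ (max K N ≤ β z) := hz
        exact Set.mem_biUnion (show β z ∈ Set.Iio (max K N) from not_le.1 h2) rfl
      exact ((Set.finite_Iio _).biUnion (fun n _ => hβ n)).subset h1
    refine ⟨q * ind (β ⁻¹' G)ᶜ, ?_, ?_⟩
    · exact (compact_ind hfin).clm_comp q
    · rw [dist_eq_norm]
      have h1 : q - q * ind (β ⁻¹' G)ᶜ = (q - a) * ind (β ⁻¹' G) + a * ind (β ⁻¹' G) := by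
        have h2 : ind (β ⁻¹' G)ᶜ = 1 - ind (β ⁻¹' G) :=
          eq_sub_of_add_eq' (ind_add_compl (β ⁻¹' G))
        rw [h2, mul_sub, mul_one, sub_mul]; abel
      rw [h1]
      calc _ ≤ ‖(q - a) * ind (β ⁻¹' G)‖ + ‖a * ind (β ⁻¹' G)‖ := norm_add_le _ _
        _ ≤ ‖q - a‖ + ε / 2 := add_le_add (norm_mul_ind _ _) hC
        _ < ε := by linarith
  rwa [(isClosed_setOf_isCompactOperator).closure_eq] at hcl

end metric

/-- A compact operator is small on most of the blocks. -/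
lemma compact_small {e : L2 Z →L[ℂ] L2 Z} (he : IsCompactOperator e) {ε : ℝ} (hε : 0 < ε) :
    ∃ N : ℕ, ∀ n, N ≤ n → ‖bl β n * e‖ ≤ ε := by
  have hvec : ∀ v : L2 Z, ∃ N : ℕ, ∀ n, N ≤ n → ‖bl β n v‖ < ε / 2 := by
    intro v
    obtain ⟨F, hF⟩ : ∃ F : Finset Z, ‖ind ((F : Set Z)ᶜ) v‖ < ε / 2 := by
      have h1 := tendsto_ind v
      have h2 : Tendsto (fun s : Finset Z => ‖ind ((s : Set Z)ᶜ) v‖) atTop (nhds 0) := by
        have h3 := ((tendsto_const_nhds (x := v)).sub h1).norm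
        rw [sub_self, norm_zero] at h3
        refine h3.congr (fun s => ?_)
        rw [ind_compl_apply]
      exact (h2.eventually (gt_mem_nhds (by linarith))).exists
    refine ⟨F.sup β + 1, fun n hn => lt_of_le_of_lt ?_ hF⟩
    apply norm_ind_mono
    intro z hz hzF
    have h1 : β z = n := hz
    have h2 : β z ≤ F.sup β := Finset.le_sup (Finset.mem_coe.1 hzF)
    omega
  have hcomp : IsCompact (closure (e '' Metric.closedBall 0 1)) :=
    he.isCompact_closure_image_closedBall 1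
  obtain ⟨t, ht, htc⟩ := Metric.totallyBounded_iff.1 hcomp.totallyBounded (ε / 2) (by linarith)
  choose Nf hNf using hvec
  refine ⟨ht.toFinset.sup Nf, fun n hn => ?_⟩
  apply ContinuousLinearMap.opNorm_le_of_unit_norm hε.le
  intro ξ hξ
  have h1 : e ξ ∈ closure (e '' Metric.closedBall 0 1) :=
    subset_closure ⟨ξ, by rw [mem_closedBall_zero_iff, hξ], rfl⟩
  obtain ⟨v, hv, hd⟩ := Set.mem_iUnion₂.1 (htc h1)
  have h2 : Nf v ≤ n := (Finset.le_sup (ht.mem_toFinset.2 hv)).trans hn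
  have h3 := hNf v n h2
  have h4 : (bl β n * e) ξ = bl β n (e ξ - v) + bl β n v := by
    show bl β n (e ξ) = _
    rw [← map_add, sub_add_cancel]
  rw [h4]
  rw [Metric.mem_ball, dist_eq_norm] at hd
  calc _ ≤ ‖bl β n (e ξ - v)‖ + ‖bl β n v‖ := norm_add_le _ _
    _ ≤ ‖e ξ - v‖ + ‖bl β n v‖ := by
        have := norm_ind_le (β ⁻¹' {n}) (e ξ - v)
        have h5 : ‖bl β n (e ξ - v)‖ ≤ ‖e ξ - v‖ := this
        linarith
    _ ≤ ε := by linarith

end Pool.Agent.Y186.RG
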