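import Pool.Agent.Y186.RG.Main

/-!
Consequences for uniformly locally finite spaces, coarse embeddings and coarse equivalences.
-/

namespace Pool.Agent.Y186.RG

open Pool.Agent.W676.Ghost Filter
open scoped Classical NNReal ENNReal

/-- Bornologous maps: points at bounded distance have images at bounded distance. -/
def Bornologous {X Y : Type} [MetricSpace X] [MetricSpace Y] (f : Y → X) : Prop :=
  ∀ r : ℝ, ∃ R : ℝ, ∀ y y' : Y, dist y y' ≤ r → dist (f y) (f y') ≤ R

/-- The fibres have a bounded number of points. -/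
def BoundedFibres {X Y : Type} (f : Y → X) : Prop :=
  ∃ N : ℕ, ∀ x : X, {y | f y = x}.encard ≤ N

/-- The preimages of balls are finite. -/
def FinitePreimages {X Y : Type} [MetricSpace X] (f : Y → X) : Prop :=
  ∀ (x : X) (r : ℝ), {y | dist (f y) x ≤ r}.Finite

/-- Coarse equivalences: coarse embeddings with coarsely dense image. -/
def CoarseEquiv {X Y : Type} [MetricSpace X] [MetricSpace Y] (f : Y → X) : Prop :=
  CoarseEmb f ∧ ∃ C : ℝ, ∀ x : X, ∃ y : Y, dist x (f y) ≤ C

theorem regular_thm {X Y : Type} [MetricSpace X] [MetricSpace Y] {f : Y → X}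
    (h1 : Bornologous f) (h2 : BoundedFibres f) (h3 : FinitePreimages f)
    (h : OnlyCompactGhosts X) : OnlyCompactGhosts Y := regular_main h1 h2 h3 h

lemma finite_ball {X : Type} [MetricSpace X] (hX : ULF X) (x : X) (r : ℝ) :
    (Metric.closedBall x r).Finite := by
  obtain ⟨N, hN⟩ := hX r
  exact Set.finite_of_encard_le_coe (hN x)

lemma finitePreimages_of_balls {X Y : Type} [MetricSpace X] {f : Y → X}
    (hX : ∀ (x : X) (r : ℝ), (Metric.closedBall x r).Finite)
    (h2 : BoundedFibres f) : FinitePreimages f := by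
  obtain ⟨N, hN⟩ := h2
  intro x r
  have h4 : {y | dist (f y) x ≤ r} = f ⁻¹' Metric.closedBall x r := rfl
  rw [h4]
  exact (hX x r).preimage' (fun b _ => Set.finite_of_encard_le_coe (hN b))

lemma finitePreimages_of_ulf {X Y : Type} [MetricSpace X] {f : Y → X}
    (hX : ULF X) (h2 : BoundedFibres f) : FinitePreimages f :=
  finitePreimages_of_balls (finite_ball hX) h2

/-- points with close images are close -/
lemma coarse_close {X Y : Type} [MetricSpace X] [MetricSpace Y] {f : Y → X} (hf : CoarseEmb f)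
    (r : ℝ) : ∃ R : ℝ, ∀ y y' : Y, dist (f y) (f y') ≤ r → dist y y' ≤ R := by
  obtain ⟨ρm, ρp, hm, hp', ht, hρ⟩ := hf
  obtain ⟨R1, hR1⟩ := (tendsto_atTop.1 ht (Real.toNNReal r + 1)).exists_forall_of_atTop
  refine ⟨R1, fun y y' hyy => ?_⟩
  by_contra hlt
  push Not at hlt
  have h1 : R1 ≤ nndist y y' := by
    rw [← NNReal.coe_le_coe, coe_nndist]; exact hlt.le
  have h2 := (hR1 _ h1).trans (hρ y y').1
  have h3 : (nndist (f y) (f y') : ℝ) ≤ r := by rw [coe_nndist]; exact hyy
  have h4 : ((Real.toNNReal r + 1 : ℝ≥0) : ℝ) ≤ (nndist (f y) (f y') : ℝ) := NNReal.coe_le_coe.2 h2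
  have h5 : r ≤ (Real.toNNReal r : ℝ) := Real.le_coe_toNNReal r
  push_cast at h4
  linarith

lemma coarse_bornologous {X Y : Type} [MetricSpace X] [MetricSpace Y] {f : Y → X}
    (hf : CoarseEmb f) : Bornologous f := by
  obtain ⟨ρm, ρp, hm, hp', ht, hρ⟩ := hf
  intro r
  refine ⟨ρp (Real.toNNReal r), fun y y' hyy => ?_⟩
  have h2 : nndist y y' ≤ Real.toNNReal r := by
    rw [← NNReal.coe_le_coe, coe_nndist]
    exact hyy.trans (Real.le_coe_toNNReal r)
  have h3 := (hρ y y').2.trans (hp' h2)
  rw [← coe_nndist]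
  exact NNReal.coe_le_coe.2 h3

lemma coarse_boundedFibres {X Y : Type} [MetricSpace X] [MetricSpace Y] {f : Y → X}
    (hf : CoarseEmb f) (hY : ULF Y) : BoundedFibres f := by
  obtain ⟨R, hR⟩ := coarse_close hf 0
  obtain ⟨N, hN⟩ := hY R
  refine ⟨N, fun x => ?_⟩
  rcases Set.eq_empty_or_nonempty {y | f y = x} with h | ⟨y0, hy0⟩
  · rw [h]; simp
  · refine (Set.encard_le_encard ?_).trans (hN y0)
    intro y hy
    rw [Metric.mem_closedBall]
    apply hR
    have h1 : f y = x := hy
    have h2 : f y0 = x := hy0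
    rw [h1, h2, dist_self]

lemma coarse_finitePreimages {X Y : Type} [MetricSpace X] [MetricSpace Y] {f : Y → X}
    (hf : CoarseEmb f) (hY : ∀ (y : Y) (r : ℝ), (Metric.closedBall y r).Finite) :
    FinitePreimages f := by
  intro x r
  rcases Set.eq_empty_or_nonempty {y | dist (f y) x ≤ r} with h | ⟨y0, hy0⟩
  · rw [h]; exact Set.finite_empty
  · obtain ⟨R, hR⟩ := coarse_close hf (r + r)
    refine (hY y0 R).subset ?_
    intro y hy
    rw [Metric.mem_closedBall]
    apply hR
    have h1 : dist (f y) x ≤ r := hy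
    have h2 : dist (f y0) x ≤ r := hy0
    rw [dist_comm] at h2
    linarith [dist_triangle (f y) x (f y0)]

theorem coarse_thm {X Y : Type} [MetricSpace X] [MetricSpace Y] (hY : ULF Y) {f : Y → X}
    (hf : CoarseEmb f) (h : OnlyCompactGhosts X) : OnlyCompactGhosts Y :=
  regular_thm (coarse_bornologous hf) (coarse_boundedFibres hf hY)
    (coarse_finitePreimages hf (finite_ball hY)) h

theorem coarseEquiv_thm {X Y : Type} [MetricSpace X] [MetricSpace Y] (hX : ULF X) (hY : ULF Y)
    {f : Y → X} (hf : CoarseEquiv f) : OnlyCompactGhosts X ↔ OnlyCompactGhosts Y := by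
  obtain ⟨hf1, C, hC⟩ := hf
  refine ⟨fun h => coarse_thm hY hf1 h, fun h => ?_⟩
  choose g hg using hC
  have hb : Bornologous g := by
    intro r
    obtain ⟨R, hR⟩ := coarse_close hf1 (r + 2 * C)
    refine ⟨R, fun x x' hxx => hR _ _ ?_⟩
    have h1 := hg x
    have h2 := hg x'
    have h3 := dist_triangle (f (g x)) x (f (g x'))
    have h4 := dist_triangle x x' (f (g x'))
    rw [dist_comm (f (g x)) x] at h3
    linarith
  have hfb : BoundedFibres g := by
    obtain ⟨N, hN⟩ := hX (2 * C)
    refine ⟨N, fun y => ?_⟩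
    rcases Set.eq_empty_or_nonempty {x | g x = y} with h0 | ⟨x0, hx0⟩
    · rw [h0]; simp
    · refine (Set.encard_le_encard ?_).trans (hN x0)
      intro x hx
      rw [Metric.mem_closedBall]
      have h1 := hg x
      have h2 := hg x0
      have h3 : g x = y := hx
      have h4 : g x0 = y := hx0
      rw [h3] at h1
      rw [h4] at h2
      rw [dist_comm] at h2
      linarith [dist_triangle x (f y) x0]
  exact regular_thm hb hfb (finitePreimages_of_ulf hY hfb) h

end Pool.Agent.Y186.RG
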