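import Pool.Agent.Y186.RG.Blocks

/-!
Cutting a non compact ghost projection down to a subsequence of the blocks.
-/

namespace Pool.Agent.Y186.RG

open Pool.Agent.W676.Ghost Filter
open scoped Classical NNReal ENNReal

variable {Z : Type} {β : Z → ℕ}

/-- ghost projections and domination of the diagonal -/
lemma ghost_of_le {g e : L2 Z →L[ℂ] L2 Z} (hg : IsStarProjection g) (hgg : IsGhost g)
    (he : IsStarProjection e) {K : ℝ} (hK0 : 0 < K) (hK : ∀ z, ‖e (del z)‖ ≤ K * ‖g (del z)‖) :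
    IsGhost e := by
  have hsmall : ∀ δ : ℝ, 0 < δ → ∃ F : Finset Z, ∀ z ∉ F, ‖g (del z)‖ ^ 2 < δ := by
    intro δ hδ
    obtain ⟨F, hF, hF2⟩ := hgg δ hδ
    refine ⟨hF.toFinset, fun z hz => ?_⟩
    have h1 := hF2 z z (fun h => hz (hF.mem_toFinset.2 h.1))
    rw [← norm_proj_del hg, Complex.norm_real, Real.norm_eq_abs,
      abs_of_nonneg (sq_nonneg _)] at h1
    exact h1
  intro ε hε
  obtain ⟨G, hG⟩ := hsmall ((ε / K) ^ 2) (by positivity)
  have hgle1 : ∀ z, ‖e (del z)‖ ≤ 1 := fun z => by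
    have := proj_apply_le he (del z)
    rwa [norm_del] at this
  have hgsm : ∀ z ∉ G, ‖e (del z)‖ < ε := by
    intro z hz
    have h7 := hG z hz
    have h8 : ‖g (del z)‖ < ε / K := lt_of_pow_lt_pow_left₀ 2 (by positivity) h7
    calc ‖e (del z)‖ ≤ K * ‖g (del z)‖ := hK z
      _ < K * (ε / K) := mul_lt_mul_of_pos_left h8 hK0
      _ = ε := by field_simp
  refine ⟨G, G.finite_toSet, fun x y hxy => ?_⟩
  have h9 := entry_proj_le he x y
  by_cases hx : x ∈ G
  · have hy : y ∉ G := fun h => hxy ⟨hx, h⟩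
    calc _ ≤ _ := h9
      _ ≤ 1 * ‖e (del y)‖ := mul_le_mul_of_nonneg_right (hgle1 x) (norm_nonneg _)
      _ < ε := by rw [one_mul]; exact hgsm y hy
  · calc _ ≤ _ := h9
      _ ≤ ‖e (del x)‖ * 1 := mul_le_mul_of_nonneg_left (hgle1 y) (norm_nonneg _)
      _ < ε := by rw [mul_one]; exact hgsm x hx

/-- choosing a fast subsequence -/
lemma exists_seq (Good : ℕ → Prop) (hgood : ∀ N, ∃ n, N ≤ n ∧ Good n) (m : ℕ → ℕ) :
    ∃ φ : ℕ → ℕ, StrictMono φ ∧ (∀ k, m (φ k) ≤ φ (k + 1)) ∧ m 0 ≤ φ 0 ∧ 1 ≤ φ 0 ∧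
      ∀ k, Good (φ k) := by
  choose g hg1 hg2 using hgood
  let φ : ℕ → ℕ := fun k => Nat.rec (g (max (m 0) 1)) (fun _ n => g (max (m n) (n + 1))) k
  have h0 : φ 0 = g (max (m 0) 1) := rfl
  have hs : ∀ k, φ (k + 1) = g (max (m (φ k)) (φ k + 1)) := fun k => rfl
  refine ⟨φ, ?_, ?_, ?_, ?_, ?_⟩
  · apply strictMono_nat_of_lt_succ
    intro k
    rw [hs]
    have := (le_max_right _ _).trans (hg1 (max (m (φ k)) (φ k + 1)))
    omega
  · intro k
    rw [hs]
    exact (le_max_left _ _).trans (hg1 _)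
  · rw [h0]; exact (le_max_left _ _).trans (hg1 _)
  · rw [h0]; exact (le_max_right _ _).trans (hg1 _)
  · intro k
    cases k with
    | zero => rw [h0]; exact hg2 _
    | succ k => rw [hs]; exact hg2 _

lemma geom_le (η : ℝ) (hη : 0 ≤ η) (M : ℕ) : ∑ k ∈ Finset.range M, η / 2 ^ (k + 1) ≤ η := by
  have h : ∑ k ∈ Finset.range M, η / 2 ^ (k + 1) = η - η / 2 ^ M := by
    induction M with
    | zero => simp
    | succ M ih =>
      rw [Finset.sum_range_succ, ih, pow_succ]
      field_simp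
      ring
  rw [h]
  have : 0 ≤ η / 2 ^ M := by positivity
  linarith

lemma norm_star_op (B : L2 Z →L[ℂ] L2 Z) : ‖star B‖ = ‖B‖ := by
  rw [ContinuousLinearMap.star_eq_adjoint]
  exact LinearIsometryEquiv.norm_map _ B

lemma norm_star_mul (B : L2 Z →L[ℂ] L2 Z) : ‖star B * B‖ = ‖B‖ * ‖B‖ := by
  rw [ContinuousLinearMap.star_eq_adjoint]
  exact ContinuousLinearMap.norm_adjoint_comp_self B

/-- **Cutting down to a subsequence of the blocks.** -/
theorem cut [MetricSpace Z] (hβ : ∀ n, (β ⁻¹' {n}).Finite)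
    (hf : ∀ R : ℝ, ∃ K : ℕ, ∀ x y : Z, β x ≠ β y → K ≤ β x + β y → R ≤ dist x y)
    {g : L2 Z →L[ℂ] L2 Z} (hg : g ∈ uRoe Z) (hp : IsStarProjection g) (hgh : IsGhost g)
    (hnc : ¬ IsCompactOperator g) (m : ℕ → ℕ) :
    ∃ φ : ℕ → ℕ, StrictMono φ ∧ (∀ k, m (φ k) ≤ φ (k + 1)) ∧ ∃ e : L2 Z →L[ℂ] L2 Z,
      e ∈ uRoe Z ∧ IsStarProjection e ∧ IsGhost e ∧ ¬ IsCompactOperator e ∧
      ind (β ⁻¹' Set.range φ) * e = e ∧ e * ind (β ⁻¹' Set.range φ) = e ∧
      ∀ W : Set Z, ind W * g = g → g * ind W = g → ind W * e = e ∧ e * ind W = e := by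
  obtain ⟨δ, hδ, hgood⟩ := infinite_good hβ hf hg hnc
  set η : ℝ := min (1 / 4) (δ / 4) with hη
  have hη0 : 0 < η := lt_min (by norm_num) (by linarith)
  have hη1 : η ≤ 1 / 4 := min_le_left _ _
  have hη2 : η ≤ δ / 4 := min_le_right _ _
  -- leak thresholds
  have hleak : ∀ n : ℕ, ∃ K : ℕ, ∀ j, K ≤ j →
      ‖ind (β ⁻¹' {j})ᶜ * g * bl β j‖ ≤ η / 2 ^ (n + 1) :=
    fun n => leak_small hf hg (by positivity)
  choose L hL using hleak
  obtain ⟨φ, hφ, hφm, hφ0, hφ1, hφg⟩ := exists_seq (fun n => δ ≤ ‖g * bl β n‖) hgood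
    (fun n => max (m n) (L n))
  have hφk : ∀ k, k + 1 ≤ φ k := by
    intro k
    induction k with
    | zero => exact hφ1
    | succ k ih =>
      have : φ k < φ (k + 1) := hφ (Nat.lt_succ_self k)
      omega
  have hφ0' : L 0 ≤ φ 0 := le_trans (le_max_right (m 0) (L 0)) hφ0
  have hφL : ∀ k, L (φ k) ≤ φ (k + 1) := fun k =>
    le_trans (le_max_right (m (φ k)) (L (φ k))) (hφm k)
  have hφM : ∀ k, m (φ k) ≤ φ (k + 1) := fun k =>
    le_trans (le_max_left (m (φ k)) (L (φ k))) (hφm k)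
  have hlk : ∀ k, ‖ind (β ⁻¹' {φ k})ᶜ * g * bl β (φ k)‖ ≤ η / 2 ^ (k + 1) := by
    intro k
    cases k with
    | zero => exact hL 0 (φ 0) hφ0'
    | succ k =>
      have h1 := hL (φ k) (φ (k + 1)) (hφL k)
      have h2 : η / 2 ^ (φ k + 1) ≤ η / 2 ^ (k + 1 + 1) := by
        apply div_le_div_of_nonneg_left hη0.le (by positivity)
        apply pow_le_pow_right₀ (by norm_num)
        have := hφk k
        omega
      exact h1.trans h2
  set U : Set Z := β ⁻¹' Set.range φ with hU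
  set l : L2 Z →L[ℂ] L2 Z := ind Uᶜ * g * ind U with hl
  have hln : ‖l‖ ≤ η := by
    apply leak_sum (c := fun n => ‖ind (β ⁻¹' {n})ᶜ * g * bl β n‖)
    · intro n hn
      have h1 : ind Uᶜ = ind Uᶜ * ind (β ⁻¹' {n})ᶜ := by
        rw [ind_mul]
        congr 1
        symm
        apply Set.inter_eq_left.2
        intro z hz hzn
        apply hz
        show β z ∈ Set.range φ
        rw [show β z = n from hzn]; exact hn
      have h2 : ind Uᶜ * g * bl β n = ind Uᶜ * (ind (β ⁻¹' {n})ᶜ * g * bl β n) := by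
        conv_lhs => rw [h1]
        simp only [mul_assoc]
      rw [h2]
      exact norm_ind_mul _ _
    · intro s hs
      set M := s.sup id + 1 with hM
      have hsub : s ⊆ (Finset.range M).image φ := by
        intro n hn
        obtain ⟨k, rfl⟩ := hs n hn
        apply Finset.mem_image_of_mem
        rw [Finset.mem_range]
        have h1 : φ k ≤ s.sup id := Finset.le_sup (f := id) hn
        have h2 := hφk k
        omega
      calc ∑ n ∈ s, ‖ind (β ⁻¹' {n})ᶜ * g * bl β n‖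
          ≤ ∑ n ∈ (Finset.range M).image φ, ‖ind (β ⁻¹' {n})ᶜ * g * bl β n‖ :=
            Finset.sum_le_sum_of_subset_of_nonneg hsub (fun _ _ _ => norm_nonneg _)
        _ = ∑ k ∈ Finset.range M, ‖ind (β ⁻¹' {φ k})ᶜ * g * bl β (φ k)‖ :=
            Finset.sum_image (fun a _ b _ h => hφ.injective h)
        _ ≤ ∑ k ∈ Finset.range M, η / 2 ^ (k + 1) := Finset.sum_le_sum (fun k _ => hlk k)
        _ ≤ η := geom_le η hη0.le M
  have hgs : star g = g := hp.isSelfAdjoint.star_eq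
  have hgg : g * g = g := hp.isIdempotentElem.eq
  set b : L2 Z →L[ℂ] L2 Z := ind U * g * ind U with hb
  have hbs : IsSelfAdjoint b := by
    show star b = b
    rw [hb, star_mul, star_mul, ind_adj, hgs, mul_assoc]
  have hbr : b ∈ uRoe Z :=
    uRoe_mul (uRoe_mul (subset_closure (finProp_ind _)) hg) (subset_closure (finProp_ind _))
  have hbb : b * b - b = -(star l * l) := by
    have h1 : star l = ind U * g * ind Uᶜ := by
      rw [hl, star_mul, star_mul, ind_adj, ind_adj, hgs, mul_assoc]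
    have h2 : star l * l = ind U * g * ind Uᶜ * g * ind U := by
      calc star l * l = ind U * g * (ind Uᶜ * ind Uᶜ) * g * ind U := by
            rw [h1, hl]; simp only [mul_assoc]
        _ = _ := by rw [ind_sq]
    have h3 : b * b = ind U * g * ind U * g * ind U := by
      calc b * b = ind U * g * (ind U * ind U) * g * ind U := by
            rw [hb]; simp only [mul_assoc]
        _ = _ := by rw [ind_sq]
    have h4 : ind Uᶜ = 1 - ind U := eq_sub_of_add_eq' (ind_add_compl U)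
    have h5 : ind U * g * g * ind U = b := by
      rw [hb, mul_assoc (ind U) g g, hgg]
    rw [h2, h3, h4, mul_sub, sub_mul, sub_mul, mul_one, h5]
    abel
  have hbn : ‖b * b - b‖ ≤ η ^ 2 := by
    rw [hbb, norm_neg]
    calc ‖star l * l‖ ≤ ‖star l‖ * ‖l‖ := norm_mul_le _ _
      _ = ‖l‖ ^ 2 := by rw [norm_star_op]; ring
      _ ≤ η ^ 2 := pow_le_pow_left₀ (norm_nonneg _) hln 2
  obtain ⟨e, h, her, hep, heh1, heh2, hen⟩ := spectral hbr hbs hbn (by nlinarith)
  have hbU : ∀ V : Set Z, ind V * g = g → ind V * b = b := by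
    intro V hV
    rw [hb, ← mul_assoc, ← mul_assoc, ind_mul, Set.inter_comm, ← ind_mul, mul_assoc (ind U), hV]
  have hbU' : ∀ V : Set Z, g * ind V = g → b * ind V = b := by
    intro V hV
    rw [hb, mul_assoc (ind U * g), ind_mul, Set.inter_comm, ← ind_mul, ← mul_assoc,
      mul_assoc (ind U) g, hV]
  have hUb : ind U * b = b := by rw [hb, ← mul_assoc, ← mul_assoc, ind_sq]
  have hbU2 : b * ind U = b := by rw [hb, mul_assoc (ind U * g), ind_sq]
  have hK0 : 0 < ‖h‖ + 1 := by positivity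
  have hle : ∀ z, ‖e (del z)‖ ≤ (‖h‖ + 1) * ‖g (del z)‖ := by
    intro z
    have h1 : e (del z) = h (ind U (g (ind U (del z)))) := by rw [heh1]; rfl
    rw [h1]
    by_cases hz : z ∈ U
    · rw [ind_del_mem hz]
      calc ‖h (ind U (g (del z)))‖ ≤ ‖h‖ * ‖ind U (g (del z))‖ := h.le_opNorm _
        _ ≤ (‖h‖ + 1) * ‖g (del z)‖ :=
          mul_le_mul (by linarith) (norm_ind_le _ _) (norm_nonneg _) (by positivity)
    · rw [ind_del_not hz, map_zero, map_zero, map_zero, norm_zero]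
      positivity
  have hGG : IsGhost e := ghost_of_le hp hgh hep hK0 hle
  refine ⟨φ, hφ, hφM, e, her, hep, hGG, ?_, ?_, ?_, ?_⟩
  · -- not compact
    intro hec
    obtain ⟨N, hN⟩ := compact_small (β := β) hec (ε := δ ^ 2 / 4) (by positivity)
    set n := φ N with hn
    have hNn : N ≤ n := by have := hφk N; omega
    have hnU : β ⁻¹' {n} ⊆ U := by
      intro z hz
      exact ⟨N, (show β z = n from hz).symm⟩
    have h1 : ‖e * bl β n‖ ≤ δ ^ 2 / 4 := by
      have h2 : e * bl β n = star (bl β n * e) := by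
        rw [star_mul, hep.isSelfAdjoint.star_eq, bl, ind_adj]
      rw [h2, norm_star_op]
      exact hN n hNn
    have hb1 : ‖b‖ ≤ 1 := (norm_ind3 _ _ _).trans hp.norm_le
    have h3 : ‖b * bl β n‖ ≤ δ ^ 2 / 4 + 2 * η ^ 2 := by
      have h4 : b * bl β n = b * (e * bl β n) + (b - b * e) * bl β n := by
        rw [sub_mul, mul_assoc b e]; abel
      rw [h4]
      calc _ ≤ ‖b * (e * bl β n)‖ + ‖(b - b * e) * bl β n‖ := norm_add_le _ _
        _ ≤ ‖b‖ * ‖e * bl β n‖ + ‖b - b * e‖ := add_le_add (norm_mul_le _ _) (norm_mul_ind _ _)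
        _ ≤ 1 * (δ ^ 2 / 4) + 2 * η ^ 2 := by
            apply add_le_add _ hen
            exact mul_le_mul hb1 h1 (norm_nonneg _) zero_le_one
        _ = _ := by ring
    have h5 : ‖g * bl β n‖ ^ 2 ≤ ‖b * bl β n‖ := by
      have h6 : star (g * bl β n) * (g * bl β n) = bl β n * (b * bl β n) := by
        have h7 : bl β n * ind U = bl β n := by
          rw [bl, ind_mul, Set.inter_eq_left.2 hnU]
        have h8 : ind U * bl β n = bl β n := by
          rw [bl, ind_mul, Set.inter_eq_right.2 hnU]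
        have h9 : star (bl β n) = bl β n := ind_adj _
        calc star (g * bl β n) * (g * bl β n) = bl β n * (g * g) * bl β n := by
              rw [star_mul, h9, hgs]; simp only [mul_assoc]
          _ = bl β n * g * bl β n := by rw [hgg]
          _ = (bl β n * ind U) * g * (ind U * bl β n) := by rw [h7, h8]
          _ = bl β n * (b * bl β n) := by rw [hb]; simp only [mul_assoc]
      have h10 := norm_star_mul (g * bl β n)
      rw [pow_two, ← h10, h6]
      exact norm_ind_mul _ _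
    have h11 : δ ^ 2 ≤ ‖g * bl β n‖ ^ 2 := pow_le_pow_left₀ hδ.le (hφg N) 2
    nlinarith
  · rw [heh2, ← mul_assoc, hUb]
  · rw [heh1, mul_assoc, hbU2]
  · intro W hW1 hW2
    constructor
    · rw [heh2, ← mul_assoc, hbU W hW1]
    · rw [heh1, mul_assoc, hbU' W hW2]

end Pool.Agent.Y186.RG
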