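import Pool.Agent.Y186.RG.Cut

/-!
Ghost projections on sparse subspaces and regular maps.
-/

namespace Pool.Agent.Y186.RG

open Pool.Agent.W676.Ghost Filter
open scoped Classical NNReal ENNReal

/-- the images of the blocks form a sparse subspace -/
lemma sparse_blocks {X Z : Type} [MetricSpace X] {f : Z → X} {β : Z → ℕ}
    (hβ : ∀ n, (β ⁻¹' {n}).Finite) {φ : ℕ → ℕ} (hφ : StrictMono φ) {m : ℕ → ℕ}
    (hm : ∀ n, ∀ x y : Z, β x ≤ n → m n ≤ β y → (n : ℝ) ≤ dist (f x) (f y))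
    (hφm : ∀ k, m (φ k) ≤ φ (k + 1))
    {W : Set Z} (hW : Set.InjOn f W) (hWφ : W ⊆ β ⁻¹' Set.range φ) (hinf : W.Infinite) :
    Sparse (f '' W) := by
  set I : Set ℕ := {k | ∃ z ∈ W, β z = φ k} with hI
  have hIinf : I.Infinite := by
    intro hfin
    apply hinf
    have h1 : W ⊆ ⋃ k ∈ I, β ⁻¹' {φ k} := by
      intro z hz
      obtain ⟨k, hk⟩ := hWφ hz
      exact Set.mem_biUnion (show k ∈ I from ⟨z, hz, hk.symm⟩) hk.symm
    exact (hfin.biUnion (fun k _ => hβ (φ k))).subset h1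
  set nn : ℕ → ℕ := Nat.nth (· ∈ I) with hnn
  have hnnI : ∀ k, nn k ∈ I := fun k => Nat.nth_mem_of_infinite hIinf k
  have hmono : StrictMono nn := Nat.nth_strictMono hIinf
  have hfar : ∀ k l : ℕ, k < l → ∀ x y : Z, β x = φ k → β y = φ l →
      (l : ℝ) - 1 ≤ dist (f x) (f y) := by
    intro k l hkl x y hx hy
    obtain ⟨j, rfl⟩ : ∃ j, l = j + 1 := ⟨l - 1, by omega⟩
    have h1 := hm (φ j) x y (by rw [hx]; exact hφ.monotone (by omega)) (by rw [hy]; exact hφm j)
    have h2 : (j : ℝ) ≤ (φ j : ℝ) := by exact_mod_cast hφ.le_apply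
    push_cast
    linarith
  have hfar2 : ∀ k l : ℕ, k ≠ l → ∀ x y : Z, β x = φ (nn k) → β y = φ (nn l) →
      ((k + l : ℕ) : ℝ) / 2 - 1 ≤ dist (f x) (f y) := by
    intro k l hkl x y hx hy
    rcases lt_or_gt_of_ne hkl with h | h
    · have h1 := hfar (nn k) (nn l) (hmono h) x y hx hy
      have h2 : (l : ℝ) ≤ (nn l : ℝ) := by exact_mod_cast hmono.le_apply
      have h3 : (k : ℝ) ≤ (l : ℝ) := by exact_mod_cast h.le
      push_cast
      linarith
    · have h1 := hfar (nn l) (nn k) (hmono h) y x hy hx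
      have h2 : (k : ℝ) ≤ (nn k : ℝ) := by exact_mod_cast hmono.le_apply
      have h3 : (l : ℝ) ≤ (k : ℝ) := by exact_mod_cast h.le
      rw [dist_comm]
      push_cast
      linarith
  refine ⟨fun k => f '' {z | z ∈ W ∧ β z = φ (nn k)}, ?_, ?_, ?_, ?_⟩
  · intro k
    constructor
    · exact ((hβ (φ (nn k))).subset (fun z hz => hz.2)).image _
    · obtain ⟨z, hz, hz2⟩ := hnnI k
      exact ⟨f z, z, ⟨hz, hz2⟩, rfl⟩
  · intro k l hkl
    rw [Set.disjoint_left]
    rintro _ ⟨a, ha, rfl⟩ ⟨b, hb, hab⟩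
    have h1 := hW hb.1 ha.1 hab
    subst h1
    exact hkl (hmono.injective (hφ.injective (ha.2.symm.trans hb.2)))
  · ext x
    constructor
    · intro hx
      obtain ⟨k, a, ha, rfl⟩ := Set.mem_iUnion.1 hx
      exact ⟨a, ha.1, rfl⟩
    · rintro ⟨a, ha, rfl⟩
      obtain ⟨n, hn⟩ := hWφ ha
      have hnI : n ∈ I := ⟨a, ha, hn.symm⟩
      refine Set.mem_iUnion.2 ⟨Nat.count (· ∈ I) n, a, ⟨ha, ?_⟩, rfl⟩
      rw [hnn, Nat.nth_count hnI]; exact hn.symm
  · intro R
    refine ⟨2 * (⌈R⌉₊ + 1), ?_⟩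
    rintro k l hkl hKkl _ ⟨a, ha, rfl⟩ _ ⟨b, hb, rfl⟩
    have h1 := hfar2 k l hkl a b ha.2 hb.2
    have h2 : ((2 * (⌈R⌉₊ + 1) : ℕ) : ℝ) ≤ ((k + l : ℕ) : ℝ) := by exact_mod_cast hKkl
    have h3 : R ≤ (⌈R⌉₊ : ℝ) := Nat.le_ceil R
    push_cast at h1 h2
    linarith

/-- **Ghost projections and regular maps.** -/
theorem regular_main {X Y : Type} [MetricSpace X] [MetricSpace Y] {f : Y → X}
    (hbor : ∀ r : ℝ, ∃ R : ℝ, ∀ y y' : Y, dist y y' ≤ r → dist (f y) (f y') ≤ R)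
    (hfib : ∃ N : ℕ, ∀ x : X, {y | f y = x}.encard ≤ N)
    (hprop : ∀ (x : X) (r : ℝ), {y | dist (f y) x ≤ r}.Finite)
    (h : OnlyCompactGhosts X) : OnlyCompactGhosts Y := by
  intro S hS q hq hp hg
  obtain ⟨A, hA1, hA2, hA3, hA4⟩ := hS
  by_contra hqnc
  set fz : S → X := fun z => f z.1 with hfz
  -- the index of the block
  have hex : ∀ z : S, ∃ n, z.1 ∈ A n := by
    intro z
    have : z.1 ∈ ⋃ n, A n := by rw [hA3]; exact z.2
    exact Set.mem_iUnion.1 this
  choose β hβA using hex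
  have hβu : ∀ (z : S) (n : ℕ), z.1 ∈ A n → β z = n := by
    intro z n hn
    by_contra hne
    exact Set.disjoint_left.1 (hA2 _ _ hne) (hβA z) hn
  have hβ : ∀ n, (β ⁻¹' {n}).Finite := by
    intro n
    have h1 : β ⁻¹' {n} ⊆ (Subtype.val : S → Y) ⁻¹' (A n) := by
      intro z hz
      have h2 : β z = n := hz
      rw [Set.mem_preimage, ← h2]
      exact hβA z
    exact ((hA1 n).1.preimage Subtype.val_injective.injOn).subset h1
  have hfar : ∀ R : ℝ, ∃ K : ℕ, ∀ x y : S, β x ≠ β y → K ≤ β x + β y → R ≤ dist x y := by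
    intro R
    obtain ⟨K, hK⟩ := hA4 R
    exact ⟨K, fun x y hxy hk => hK _ _ hxy hk x.1 (hβA x) y.1 (hβA y)⟩
  -- fibres
  obtain ⟨N, hN⟩ := hfib
  have hfibz : ∀ z : S, {z' | fz z' = fz z}.encard ≤ N := by
    intro z
    have h1 : (Subtype.val '' {z' | fz z' = fz z}) ⊆ {y | f y = f z.1} := by
      rintro _ ⟨z', hz', rfl⟩; exact hz'
    rw [← Subtype.val_injective.encard_image]
    exact (Set.encard_le_encard h1).trans (hN _)
  obtain ⟨W, hW, g, hg1, hg2, hg3, hg4, hg5, hg6⟩ := corner N fz hfibz hq hp hg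
  have hgnc : ¬ IsCompactOperator g := fun hc => hqnc (hg6 hc)
  -- images of the blocks
  have hmex : ∀ n : ℕ, ∃ m : ℕ, ∀ x y : S, β x ≤ n → m ≤ β y → (n : ℝ) ≤ dist (fz x) (fz y) := by
    intro n
    have hPfin : (⋃ k ∈ Set.Iic n, β ⁻¹' {k}).Finite :=
      (Set.finite_Iic n).biUnion (fun k _ => hβ k)
    have hQfin : (⋃ x ∈ (⋃ k ∈ Set.Iic n, β ⁻¹' {k}),
        {y : S | dist (fz y) (fz x) ≤ (n : ℝ)}).Finite := by
      apply hPfin.biUnion
      intro x _
      exact (hprop (fz x) (n : ℝ)).preimage Subtype.val_injective.injOn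
    refine ⟨hQfin.toFinset.sup β + 1, fun x y hx hy => ?_⟩
    by_contra hlt
    push Not at hlt
    have h1 : y ∈ hQfin.toFinset := by
      rw [Set.Finite.mem_toFinset]
      refine Set.mem_biUnion (Set.mem_biUnion (show β x ∈ Set.Iic n from hx) rfl) ?_
      show dist (fz y) (fz x) ≤ (n : ℝ)
      rw [dist_comm]; exact hlt.le
    have h2 : β y ≤ hQfin.toFinset.sup β := Finset.le_sup h1
    omega
  choose m hm using hmex
  obtain ⟨φ, hφ, hφm, e, he1, he2, he3, he4, he5, he6, he7⟩ := cut hβ hfar hg1 hg2 hg3 hgnc m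
  obtain ⟨he8, he9⟩ := he7 W hg4 hg5
  apply he4
  set W' : Set S := W ∩ β ⁻¹' Set.range φ with hW'
  have hWe : ind W' * e = e := by rw [hW', ← ind_mul, mul_assoc, he5, he8]
  have heW : e * ind W' = e := by rw [hW', ← ind_mul, ← mul_assoc, he9, he6]
  have hWinj : Set.InjOn fz W' := hW.mono Set.inter_subset_left
  by_cases hfin : W'.Finite
  · have h1 : IsCompactOperator (ind W' * e : L2 S →L[ℂ] L2 S) := (compact_ind hfin).comp_clm e
    rwa [hWe] at h1
  · -- transport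
    let j : (fz '' W' : Set X) → S := fun x => Classical.choose x.2
    have hj1 : ∀ x, j x ∈ W' := fun x => (Classical.choose_spec x.2).1
    have hj2 : ∀ x, fz (j x) = x.1 := fun x => (Classical.choose_spec x.2).2
    have hj : Function.Injective j := by
      intro x y hxy
      apply Subtype.ext
      rw [← hj2 x, ← hj2 y, hxy]
    have hrange : Set.range j = W' := by
      ext z
      constructor
      · rintro ⟨x, rfl⟩; exact hj1 x
      · intro hz
        exact ⟨⟨fz z, z, hz, rfl⟩, hWinj (hj1 _) hz (hj2 _)⟩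
    have hsp : Sparse (fz '' W') :=
      sparse_blocks hβ hφ hm hφm hWinj Set.inter_subset_right hfin
    apply compact_of_tr hj (by rw [hrange]; exact hWe) (by rw [hrange]; exact heW)
    apply h _ hsp
    · refine map_mem_closure (continuous_tr hj) he1 ?_
      intro a ha
      obtain ⟨r, hr⟩ := ha
      obtain ⟨R, hR⟩ := hbor r
      refine ⟨R, fun x y hxy => ?_⟩
      rw [entry_tr] at hxy
      have h1 := hR _ _ (hr _ _ hxy)
      have h4 : dist x y = dist (fz (j x)) (fz (j y)) := by rw [hj2, hj2]; rfl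
      rw [h4]
      exact h1
    · exact isStarProjection_tr hj he2 (by rw [hrange]; exact hWe)
    · intro ε hε
      obtain ⟨F, hF, hF2⟩ := he3 ε hε
      refine ⟨j ⁻¹' F, hF.preimage hj.injOn, fun x y hxy => ?_⟩
      rw [entry_tr]
      exact hF2 _ _ hxy

end Pool.Agent.Y186.RG
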